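import Pool.Agent.R34.DP.Rec
import Pool.Agent.R99.DP.KEY
import Pool.Agent.R139.DP.Int
import Pool.Agent.R656.DP.Line
import Pool.Agent.R806.DP.Prod
import Pool.Agent.R813.DP.PI
import Pool.Agent.R157.DP.L1
import Pool.Agent.R316.DP.Dbl
import Pool.Agent.R962.DP.CLD
import Pool.Agent.R668.DP.PO
import Pool.Agent.R916.DP.Rot
import Pool.Agent.Helper699.DP.Madm
import Pool.Agent.H152R2.DP.Mlim
import Pool.Agent.H152R2.DP.Ex0
import Pool.Agent.H983.DP.MERGE
import Pool.Agent.R906.DP.Cube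

/-!
# Project DP: assembly of the directed L1-l2 Poincare inequality on the cube

The pieces were written by helpers 99, 139, 656, 806, 813, 157, 316, 962, 668, 916, 699, 152,
983 and 906; the recursion is in Rec.lean.
-/

namespace R34.DP

theorem t_GAUSS_full : S_GAUSS :=
  t_GAUSS
    (t_LINE t_KEY1 t_KEY2 (t_INT t_KEY1 t_KEY2))
    t_PROD
    (t_PI t_PROD)
    t_L1
    (R316.DP.t_DBL t_PROD t_L1)
    (R962.DP.t_CLD t_PROD t_L1)
    t_ROT
    (Pool.Agent.H152R2.DP.t_EX0 t_ROT R668.DPPO.t_PO t_MADM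
      (Pool.Agent.H152R2.DP.t_MLIM t_MADM) t_GRB)
    t_MERGE

theorem t_FINAL : S_FINAL :=
  Pool.Agent.R906.DP.t_CUBE t_GAUSS_full

end R34.DP
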