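import Pool.Agent.R34.DP.Stm

open MeasureTheory ProbabilityTheory Set Filter
open scoped NNReal ENNReal Topology

namespace R34.DP

lemma ngrad_nonneg {n : ℕ} (f : (Fin n → ℝ) → ℝ) (x : Fin n → ℝ) : 0 ≤ ngrad f x :=
  Real.sqrt_nonneg _

lemma measurable_ngrad {n : ℕ} (f : (Fin n → ℝ) → ℝ) : Measurable (ngrad f) := by
  unfold ngrad
  refine Measurable.sqrt ?_
  refine Finset.measurable_sum _ (fun i _ => ?_)
  refine Measurable.pow_const ?_ 2
  exact (measurable_fderiv_apply_const ℝ f (Pi.single i 1)).min measurable_const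

lemma ngrad_comp_smul {n : ℕ} (f : (Fin n → ℝ) → ℝ) (c : ℝ) (hc : 0 < c) (x : Fin n → ℝ) :
    ngrad (fun y => f (c • y)) x = c * ngrad f (c • x) := by
  unfold ngrad
  have h : ∀ i : Fin n, fderiv ℝ (fun y => f (c • y)) x (Pi.single i 1)
      = c * fderiv ℝ f (c • x) (Pi.single i 1) := by
    intro i
    rw [fderiv_comp_smul]
    simp
  have h2 : (∑ i, (min (fderiv ℝ (fun y => f (c • y)) x (Pi.single i 1)) 0) ^ 2)
      = c ^ 2 * ∑ i, (min (fderiv ℝ f (c • x) (Pi.single i 1)) 0) ^ 2 := by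
    rw [Finset.mul_sum]
    refine Finset.sum_congr rfl (fun i _ => ?_)
    rw [h i]
    have : min (c * fderiv ℝ f (c • x) (Pi.single i 1)) 0
        = c * min (fderiv ℝ f (c • x) (Pi.single i 1)) 0 := by
      rw [mul_min_of_nonneg _ _ hc.le, mul_zero]
    rw [this]; ring
  rw [h2, Real.sqrt_mul (sq_nonneg c), Real.sqrt_sq hc.le]

lemma law_half {X : Type} [NormedAddCommGroup X] [NormedSpace ℝ X] [MeasurableSpace X]
    [BorelSpace X] [SecondCountableTopology X] (μ : Measure X) [IsProbabilityMeasure μ]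
    (h : RotInv μ) (Ψ : X → ℝ) (hΨ : Measurable Ψ) :
    ∫ p : X × X, Ψ ((1 / Real.sqrt 2) • (p.1 + p.2)) ∂(μ.prod μ) = ∫ x, Ψ x ∂μ := by
  have hm : Measurable (fun p : X × X =>
      ((1 / Real.sqrt 2) • (p.1 + p.2), (1 / Real.sqrt 2) • (p.1 - p.2))) := by
    fun_prop
  have h1 : ∫ q : X × X, Ψ q.1 ∂((μ.prod μ).map (fun p : X × X =>
      ((1 / Real.sqrt 2) • (p.1 + p.2), (1 / Real.sqrt 2) • (p.1 - p.2))))
      = ∫ p : X × X, Ψ ((1 / Real.sqrt 2) • (p.1 + p.2)) ∂(μ.prod μ) := by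
    have hs : AEStronglyMeasurable (fun q : X × X => Ψ q.1) ((μ.prod μ).map (fun p : X × X =>
      ((1 / Real.sqrt 2) • (p.1 + p.2), (1 / Real.sqrt 2) • (p.1 - p.2)))) :=
      (hΨ.comp measurable_fst).aestronglyMeasurable
    rw [integral_map hm.aemeasurable hs]
  rw [← h1]
  unfold RotInv at h
  rw [h]
  rw [integral_fun_fst]
  simp

lemma adm_comp {X Y : Type} [PseudoMetricSpace X] [PseudoMetricSpace Y] {F : Y → ℝ} (hF : Adm F)
    {e : X → Y} {L : ℝ≥0} (he : LipschitzWith L e) : Adm (fun x => F (e x)) := by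
  obtain ⟨⟨K, hK⟩, B, hB⟩ := hF
  exact ⟨⟨K * L, hK.comp he⟩, B, fun x => hB _⟩

lemma adm_T {X : Type} [NormedAddCommGroup X] [PartialOrder X] [MeasurableSpace X]
    {μ : Measure X} {T : (X → ℝ) → X → ℝ} {C : ℝ≥0} (hT : GoodOp μ T C) {F : X → ℝ} (hF : Adm F) :
    Adm (T F) := by
  obtain ⟨⟨K, hK⟩, B, hB⟩ := hF
  exact ⟨⟨C * K, hT.lip K F ⟨⟨K, hK⟩, B, hB⟩ hK⟩, B, hT.bdd B F ⟨⟨K, hK⟩, B, hB⟩ hB⟩

lemma Adm.integrable {X : Type} [NormedAddCommGroup X] [MeasurableSpace X] [BorelSpace X]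
    [SecondCountableTopology X] {μ : Measure X} [IsFiniteMeasure μ] {F : X → ℝ} (hF : Adm F) :
    Integrable F μ := by
  obtain ⟨⟨K, hK⟩, B, hB⟩ := hF
  exact Integrable.of_bound hK.continuous.aestronglyMeasurable B
    (Eventually.of_forall (fun x => by simpa [Real.norm_eq_abs] using hB x))

lemma Adm.sub {X : Type} [PseudoMetricSpace X] {F G : X → ℝ} (hF : Adm F) (hG : Adm G) :
    Adm (fun x => F x - G x) := by
  obtain ⟨⟨K, hK⟩, B, hB⟩ := hF
  obtain ⟨⟨K', hK'⟩, B', hB'⟩ := hG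
  refine ⟨⟨K + K', hK.sub hK'⟩, B + B', fun x => ?_⟩
  calc |F x - G x| ≤ |F x| + |G x| := abs_sub _ _
    _ ≤ B + B' := add_le_add (hB x) (hB' x)


/-- the base case of the recursion -/
lemma cl_base {n : ℕ} (T : ((Fin n → ℝ) → ℝ) → (Fin n → ℝ) → ℝ) (C : ℝ≥0)
    (hT : GoodOp (gam n) T C) (hL1 : S_L1) (hint : Integrable (fun x : Fin n → ℝ => ‖x‖) (gam n))
    (A : ℝ) (hA : 0 ≤ A) :
    Cl n (gam n) T (ContinuousLinearMap.id ℝ (Fin n → ℝ)) A (2 * ∫ x, ‖x‖ ∂(gam n)) := by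
  intro K f hf hK
  simp only [ContinuousLinearMap.id_apply]
  have hconst : Adm (fun _ : Fin n → ℝ => f 0) :=
    ⟨⟨0, LipschitzWith.const _⟩, |f 0|, fun _ => le_rfl⟩
  have hfix : T (fun _ => f 0) = fun _ => f 0 :=
    hT.fix _ hconst (fun _ _ _ => le_rfl)
  have h1 := hL1 (Fin n → ℝ) (gam n) T C hT f (fun _ => f 0) hf hconst
  rw [hfix] at h1
  have hTf := adm_T hT hf
  have hi1 : Integrable (fun x => |f x - f 0|) (gam n) := (hf.sub hconst).integrable.abs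
  have hi2 : Integrable (fun x => |T f x - f 0|) (gam n) := (hTf.sub hconst).integrable.abs
  have hi3 : Integrable (fun x => |f x - T f x|) (gam n) := (hf.sub hTf).integrable.abs
  have h2 : ∫ x, |f x - T f x| ∂(gam n) ≤ ∫ x, (|f x - f 0| + |T f x - f 0|) ∂(gam n) := by
    refine integral_mono hi3 (hi1.add hi2) (fun x => ?_)
    have := abs_sub (f x - f 0) (T f x - f 0)
    simpa using this
  rw [integral_add hi1 hi2] at h2
  have h3 : ∫ x, |f x - f 0| ∂(gam n) ≤ K * ∫ x, ‖x‖ ∂(gam n) := by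
    rw [← integral_const_mul]
    refine integral_mono hi1 (hint.const_mul _) (fun x => ?_)
    have := hK.dist_le_mul x 0
    rw [Real.dist_eq, dist_zero_right] at this
    exact this
  have h4 : 0 ≤ A * ∫ x, ngrad f x ∂(gam n) :=
    mul_nonneg hA (integral_nonneg (fun x => ngrad_nonneg f x))
  nlinarith


lemma integrable_norm_gam (n : ℕ) : Integrable (fun x : Fin n → ℝ => ‖x‖) (gam n) := by
  have h1 : ∀ i : Fin n, Integrable (fun x : Fin n → ℝ => |x i|) (gam n) := by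
    intro i
    have h0 : Integrable (fun t : ℝ => |t|) g1 := by
      unfold g1
      exact (ProbabilityTheory.IsGaussian.integrable_id).abs
    exact integrable_comp_eval (μ := fun _ : Fin n => g1) (i := i) (f := fun t : ℝ => |t|) h0
  have h2 : Integrable (fun x : Fin n → ℝ => ∑ i, |x i|) (gam n) :=
    integrable_finsetSum _ (fun i _ => h1 i)
  refine h2.mono (by fun_prop) (Eventually.of_forall (fun x => ?_))
  rw [norm_norm]
  rw [Real.norm_eq_abs, abs_of_nonneg (Finset.sum_nonneg (fun i _ => abs_nonneg _))]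
  refine (pi_norm_le_iff_of_nonneg (Finset.sum_nonneg (fun i _ => abs_nonneg _))).2 (fun i => ?_)
  rw [Real.norm_eq_abs]
  exact Finset.single_le_sum (f := fun i => |x i|) (fun j _ => abs_nonneg _) (Finset.mem_univ i)

/-- the constant `1/√2` -/
noncomputable def rr : ℝ := 1 / Real.sqrt 2

lemma rr_pos : 0 < rr := by unfold rr; positivity

lemma rr_sq : rr * rr = 1 / 2 := by
  unfold rr
  rw [div_mul_div_comm, Real.mul_self_sqrt (by norm_num)]; norm_num

/-- one step of the recursion: from the eight block claim back to one block -/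
lemma cl_back {n : ℕ} (T : ((Fin n → ℝ) → ℝ) → (Fin n → ℝ) → ℝ) (C : ℝ≥0)
    (hT : GoodOp (gam n) T C) (hPROD : S_PROD) (hL1 : S_L1) (hROT : S_ROT) (hMERGE : S_MERGE)
    (α β : ℝ)
    (h3 : Cl n (((gam n).prod (gam n)).prod ((gam n).prod (gam n)) |>.prod
      (((gam n).prod (gam n)).prod ((gam n).prod (gam n))))
      (prodOp (prodOp (prodOp T T) (prodOp T T)) (prodOp (prodOp T T) (prodOp T T)))
      (dbl (dbl (dbl (ContinuousLinearMap.id ℝ (Fin n → ℝ))))) α β) :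
    Cl n (gam n) T (ContinuousLinearMap.id ℝ (Fin n → ℝ)) (2 * rr ^ 3 * α) (2 * rr ^ 3 * β) := by
  obtain ⟨C1, G1⟩ := hPROD _ _ (gam n) (gam n) T T C C hT hT
  obtain ⟨C2, G2⟩ := hPROD _ _ _ _ _ _ C1 C1 G1 G1
  obtain ⟨C3, G3⟩ := hPROD _ _ _ _ _ _ C2 C2 G2 G2
  have R0 := hROT.1 n
  have R1 := hROT.2 _ (gam n) R0
  have R2 := hROT.2 _ _ R1
  intro K f hf hK
  simp only [ContinuousLinearMap.id_apply]
  set σ0 : (Fin n → ℝ) →L[ℝ] (Fin n → ℝ) := ContinuousLinearMap.id ℝ (Fin n → ℝ) with hσ0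
  set σ1 := dbl σ0 with hσ1
  set σ2 := dbl σ1 with hσ2
  set σ3 := dbl σ2 with hσ3
  -- the scaled function
  set f8 : (Fin n → ℝ) → ℝ := fun y => f ((rr ^ 3) • y) with hf8
  have hr3 : 0 < rr ^ 3 := pow_pos rr_pos 3
  let r3 : ℝ≥0 := ⟨rr ^ 3, hr3.le⟩
  have hsm : LipschitzWith r3 (fun y : Fin n → ℝ => (rr ^ 3) • y) := by
    refine LipschitzWith.of_dist_le_mul (fun x y => ?_)
    rw [dist_smul₀, Real.norm_eq_abs, abs_of_pos hr3]
    rfl
  have hf8A : Adm f8 := adm_comp hf hsm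
  have hf8K : LipschitzWith (K * r3) f8 := hK.comp hsm
  have key := h3 (K * r3) f8 hf8A hf8K
  -- the monotone function on eight blocks
  have hAF : Adm (fun u : (((Fin n → ℝ) × (Fin n → ℝ)) × ((Fin n → ℝ) × (Fin n → ℝ))) ×
      (((Fin n → ℝ) × (Fin n → ℝ)) × ((Fin n → ℝ) × (Fin n → ℝ))) => f8 (σ3 u)) :=
    adm_comp hf8A σ3.lipschitz
  have hGA := adm_T G3 hAF
  have hGM := G3.mono_out _ hAF
  -- merging
  have hφ2 : Adm (fun S : ((Fin n → ℝ) × (Fin n → ℝ)) × ((Fin n → ℝ) × (Fin n → ℝ)) =>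
      f ((rr ^ 2) • σ2 S)) := by
    have : LipschitzWith (‖(rr ^ 2) • σ2‖₊) (fun S => (rr ^ 2) • σ2 S) :=
      ((rr ^ 2) • σ2).lipschitz
    exact adm_comp hf this
  obtain ⟨g2, hg2A, hg2M, hg2⟩ := hMERGE _ _ R2 _ _ hφ2 hGA hGM
  have hφ1 : Adm (fun S : (Fin n → ℝ) × (Fin n → ℝ) => f (rr • σ1 S)) := by
    have : LipschitzWith (‖rr • σ1‖₊) (fun S => rr • σ1 S) := (rr • σ1).lipschitz
    exact adm_comp hf this
  obtain ⟨g1', hg1A, hg1M, hg1⟩ := hMERGE _ _ R1 _ _ hφ1 hg2A hg2M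
  obtain ⟨g0, hg0A, hg0M, hg0⟩ := hMERGE _ _ R0 _ _ hf hg1A hg1M
  -- identify the integrands
  have e2 : ∀ p : (((Fin n → ℝ) × (Fin n → ℝ)) × ((Fin n → ℝ) × (Fin n → ℝ))) ×
      (((Fin n → ℝ) × (Fin n → ℝ)) × ((Fin n → ℝ) × (Fin n → ℝ))),
      f ((rr ^ 2) • σ2 ((1 / Real.sqrt 2) • (p.1 + p.2))) = f8 (σ3 p) := by
    intro p
    have : (rr ^ 2) • σ2 ((1 / Real.sqrt 2) • (p.1 + p.2)) = (rr ^ 3) • σ3 p := by
      rw [map_smul, smul_smul, map_add]
      have h1 : rr ^ 2 * (1 / Real.sqrt 2) = rr ^ 3 := by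
        rw [show (1 / Real.sqrt 2) = rr from rfl]; ring
      rw [h1, hσ3]
      simp [dbl]
    rw [this]
  have e1 : ∀ p : ((Fin n → ℝ) × (Fin n → ℝ)) × ((Fin n → ℝ) × (Fin n → ℝ)),
      f (rr • σ1 ((1 / Real.sqrt 2) • (p.1 + p.2))) = f ((rr ^ 2) • σ2 p) := by
    intro p
    have : rr • σ1 ((1 / Real.sqrt 2) • (p.1 + p.2)) = (rr ^ 2) • σ2 p := by
      rw [map_smul, smul_smul, map_add]
      have h1 : rr * (1 / Real.sqrt 2) = rr ^ 2 := by
        rw [show (1 / Real.sqrt 2) = rr from rfl]; ring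
      rw [h1, hσ2]
      simp [dbl]
    rw [this]
  have e0 : ∀ p : (Fin n → ℝ) × (Fin n → ℝ),
      f ((1 / Real.sqrt 2) • (p.1 + p.2)) = f (rr • σ1 p) := by
    intro p
    have : (1 / Real.sqrt 2) • (p.1 + p.2) = rr • σ1 p := by
      rw [show (1 / Real.sqrt 2) = rr from rfl, hσ1, hσ0]
      simp [dbl]
    rw [this]
  simp only [e2] at hg2
  simp only [e1] at hg1
  simp only [e0] at hg0
  have hchain : ∫ x, |f x - g0 x| ∂(gam n) ≤ α * (rr ^ 3 * ∫ x, ngrad f x ∂(gam n))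
      + β * (K * rr ^ 3) := by
    refine hg0.trans (hg1.trans (hg2.trans (key.trans (le_of_eq ?_))))
    have hlaw : ∫ x, ngrad f8 (σ3 x) ∂(((gam n).prod (gam n)).prod ((gam n).prod (gam n)) |>.prod
      (((gam n).prod (gam n)).prod ((gam n).prod (gam n)))) = rr ^ 3 * ∫ x, ngrad f x ∂(gam n) := by
      have a1 : ∀ x : (((Fin n → ℝ) × (Fin n → ℝ)) × ((Fin n → ℝ) × (Fin n → ℝ))) ×
      (((Fin n → ℝ) × (Fin n → ℝ)) × ((Fin n → ℝ) × (Fin n → ℝ))),
        ngrad f8 (σ3 x) = rr ^ 3 * (fun S => ngrad f ((rr ^ 2) • σ2 S))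
          ((1 / Real.sqrt 2) • (x.1 + x.2)) := by
        intro x
        rw [hf8, ngrad_comp_smul f _ hr3]
        congr 2
        change (rr ^ 3) • σ3 x = (rr ^ 2) • σ2 ((1 / Real.sqrt 2) • (x.1 + x.2))
        rw [map_smul, smul_smul, map_add]
        have h1 : rr ^ 2 * (1 / Real.sqrt 2) = rr ^ 3 := by
          rw [show (1 / Real.sqrt 2) = rr from rfl]; ring
        rw [h1, hσ3]
        simp [dbl]
      simp_rw [a1]
      rw [integral_const_mul]
      rw [law_half _ R2 (fun S => ngrad f ((rr ^ 2) • σ2 S))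
        ((measurable_ngrad f).comp (by fun_prop))]
      have a2 : ∀ x : ((Fin n → ℝ) × (Fin n → ℝ)) × ((Fin n → ℝ) × (Fin n → ℝ)),
        ngrad f ((rr ^ 2) • σ2 x) = (fun S => ngrad f (rr • σ1 S))
          ((1 / Real.sqrt 2) • (x.1 + x.2)) := by
        intro x
        change ngrad f ((rr ^ 2) • σ2 x) = ngrad f (rr • σ1 ((1 / Real.sqrt 2) • (x.1 + x.2)))
        congr 1
        rw [map_smul, smul_smul, map_add]
        have h1 : rr * (1 / Real.sqrt 2) = rr ^ 2 := by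
          rw [show (1 / Real.sqrt 2) = rr from rfl]; ring
        rw [h1, hσ2]
        simp [dbl]
      simp_rw [a2]
      rw [law_half _ R1 (fun S => ngrad f (rr • σ1 S))
        ((measurable_ngrad f).comp (by fun_prop))]
      have a3 : ∀ x : (Fin n → ℝ) × (Fin n → ℝ),
        ngrad f (rr • σ1 x) = ngrad f ((1 / Real.sqrt 2) • (x.1 + x.2)) := by
        intro x
        congr 1
      simp_rw [a3]
      rw [law_half _ R0 (ngrad f) (measurable_ngrad f)]
    rw [hlaw]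
    push_cast
    rfl
  have hTf := adm_T hT hf
  have hi1 : Integrable (fun x => |f x - g0 x|) (gam n) := (hf.sub hg0A).integrable.abs
  have hi2 : Integrable (fun x => |T f x - T g0 x|) (gam n) :=
    (hTf.sub (adm_T hT hg0A)).integrable.abs
  have hi3 : Integrable (fun x => |f x - T f x|) (gam n) := (hf.sub hTf).integrable.abs
  have hfix : T g0 = g0 := hT.fix g0 hg0A hg0M
  have h1 := hL1 (Fin n → ℝ) (gam n) T C hT f g0 hf hg0A
  have h2 : ∫ x, |f x - T f x| ∂(gam n) ≤ ∫ x, (|f x - g0 x| + |T f x - T g0 x|) ∂(gam n) := by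
    refine integral_mono hi3 (hi1.add hi2) (fun x => ?_)
    rw [hfix]
    have := abs_sub (f x - g0 x) (T f x - g0 x)
    simpa using this
  rw [integral_add hi1 hi2] at h2
  have : α * (rr ^ 3 * ∫ x, ngrad f x ∂(gam n)) + β * (K * rr ^ 3)
      = (2 * rr ^ 3 * α * ∫ x, ngrad f x ∂(gam n) + 2 * rr ^ 3 * β * K) / 2 := by ring
  rw [this] at hchain
  linarith


theorem t_GAUSS (hLINE : S_LINE) (hPROD : S_PROD) (hPI : S_PI) (hL1 : S_L1) (hDBL : S_DBL)
    (hCLD : S_CLD) (hROT : S_ROT) (hEX0 : S_EX0) (hMERGE : S_MERGE) : S_GAUSS := by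
  set c0 : ℝ := Real.pi / Real.sqrt 2 with hc0
  have hc0p : 0 < c0 := by positivity
  have hs2 : 1 < Real.sqrt 2 := by
    rw [Real.lt_sqrt (by norm_num)]; norm_num
  set A : ℝ := 62 * c0 / (Real.sqrt 2 - 1) with hA
  have hAp : 0 < A := div_pos (by positivity) (by linarith)
  refine ⟨A, hAp, fun n f hf => ?_⟩
  obtain ⟨T, C, hT⟩ := hPI ⟨iso, 1, hLINE⟩ n
  obtain ⟨C1, G1⟩ := hPROD _ _ (gam n) (gam n) T T C C hT hT
  obtain ⟨C2, G2⟩ := hPROD _ _ _ _ _ _ C1 C1 G1 G1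
  have E0 := hEX0 n T C hT
  have E1 := hDBL _ n _ T C _ _ hT E0
  have E2 := hDBL _ n _ _ C1 _ _ G1 E1
  have step : ∀ β : ℝ, Cl n (gam n) T (ContinuousLinearMap.id ℝ (Fin n → ℝ)) A β →
      Cl n (gam n) T (ContinuousLinearMap.id ℝ (Fin n → ℝ)) A (rr * β) := by
    intro β h0
    have k1 := hCLD _ n _ T C _ _ A β hT E0 h0
    have k2 := hCLD _ n _ _ C1 _ _ _ β G1 E1 k1
    have k3 := hCLD _ n _ _ C2 _ _ _ β G2 E2 k2
    have k4 := cl_back T C hT hPROD hL1 hROT hMERGE _ β k3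
    have h2 : 2 * rr ^ 3 = rr := by
      have := rr_sq
      calc 2 * rr ^ 3 = 2 * (rr * rr) * rr := by ring
        _ = rr := by rw [this]; ring
    rw [h2] at k4
    have h3 : rr * (A + 2 * c0 + 2 * (5 * c0) + 2 * (5 * (5 * c0))) = A := by
      have hA2 : A * (Real.sqrt 2 - 1) = 62 * c0 := by
        rw [hA]; field_simp [(by linarith : Real.sqrt 2 - 1 ≠ 0)]
      have : A + 2 * c0 + 2 * (5 * c0) + 2 * (5 * (5 * c0)) = A * Real.sqrt 2 := by linarith
      rw [this]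
      unfold rr
      field_simp
    rw [h3] at k4
    exact k4
  have hbase := cl_base T C hT hL1 (integrable_norm_gam n) A hAp.le
  set β0 : ℝ := 2 * ∫ x, ‖x‖ ∂(gam n) with hβ0
  have hall : ∀ k : ℕ, Cl n (gam n) T (ContinuousLinearMap.id ℝ (Fin n → ℝ)) A (rr ^ k * β0) := by
    intro k
    induction k with
    | zero => simpa using hbase
    | succ k ih =>
      have := step _ ih
      rwa [← mul_assoc, ← pow_succ'] at this
  have hTf := adm_T hT hf
  refine ⟨T f, hTf, hT.mono_out f hf, ?_⟩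
  obtain ⟨⟨K, hK⟩, hB⟩ := hf
  have hlim : Tendsto (fun k : ℕ => A * ∫ x, ngrad f x ∂(gam n) + rr ^ k * β0 * K) atTop
      (𝓝 (A * ∫ x, ngrad f x ∂(gam n))) := by
    have hr1 : rr < 1 := by
      unfold rr
      rw [div_lt_one (by positivity)]
      exact hs2
    have := (tendsto_pow_atTop_nhds_zero_of_lt_one rr_pos.le hr1).mul_const (β0 * K)
    have := this.const_add (A * ∫ x, ngrad f x ∂(gam n))
    simpa [mul_assoc] using this
  refine ge_of_tendsto' hlim (fun k => ?_)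
  have := hall k K f ⟨⟨K, hK⟩, hB⟩ hK
  simpa using this

end R34.DP
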