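import Mathlib

/-!
Directed L1-l2 Poincare inequality on the unit cube (problem MP_04ae38_an): the statements of the
pieces.  See NOTES.md in this folder for the complete proofs.
-/

open MeasureTheory ProbabilityTheory Set Filter
open scoped NNReal ENNReal Topology

namespace R34.DP

/-- bounded and Lipschitz -/
def Adm {X : Type} [PseudoMetricSpace X] (F : X → ℝ) : Prop :=
  (∃ K : ℝ≥0, LipschitzWith K F) ∧ ∃ B : ℝ, ∀ x, |F x| ≤ B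

/-- the properties of the (isotonic regression) operator that are used -/
structure GoodOp {X : Type} [NormedAddCommGroup X] [PartialOrder X] [MeasurableSpace X]
    (μ : Measure X) (T : (X → ℝ) → X → ℝ) (C : ℝ≥0) : Prop where
  lip : ∀ (K : ℝ≥0) (F : X → ℝ), Adm F → LipschitzWith K F → LipschitzWith (C * K) (T F)
  bdd : ∀ (B : ℝ) (F : X → ℝ), Adm F → (∀ x, |F x| ≤ B) → ∀ x, |T F x| ≤ B
  const : ∀ (c : ℝ) (F : X → ℝ), Adm F → T (fun x => F x + c) = fun x => T F x + c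
  int : ∀ F : X → ℝ, Adm F → ∫ x, T F x ∂μ = ∫ x, F x ∂μ
  mono_out : ∀ F : X → ℝ, Adm F → Monotone (T F)
  fix : ∀ F : X → ℝ, Adm F → Monotone F → T F = F
  lower : ∀ (a : X), 0 ≤ a → ∀ F G : X → ℝ, Adm F → Adm G → (∀ x, G x ≤ F (x + a)) →
    ∀ x, T G x ≤ T F (x + a)
  upper : ∀ (a : X), 0 ≤ a → ∀ F G : X → ℝ, Adm F → Adm G →
    (∀ x c, 0 ≤ c → c ≤ a → F (x + c) ≤ G x) →
    ∀ x c, 0 ≤ c → c ≤ a → T F (x + c) ≤ T G x

/-! ### the one dimensional operator (isotonic regression with respect to N(0,1)) -/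

/-- standard Gaussian on the line -/
noncomputable def g1 : Measure ℝ := gaussianReal 0 1

/-- average of `h` over `(a,b]` -/
noncomputable def avg (h : ℝ → ℝ) (a b : ℝ) : ℝ := (∫ t in Set.Ioc a b, h t ∂g1) / g1.real (Set.Ioc a b)

/-- `∫_{(a,b]} (h - c) dγ` -/
noncomputable def phi (h : ℝ → ℝ) (c a b : ℝ) : ℝ := ∫ t in Set.Ioc a b, (h t - c) ∂g1

/-- isotonic regression -/
noncomputable def iso (h : ℝ → ℝ) (y : ℝ) : ℝ := ⨆ a : Set.Iio y, ⨅ b : Set.Ici y, avg h a b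

def S_KEY1 : Prop := ∀ h : ℝ → ℝ, Adm h → ∀ y c : ℝ, c < iso h y →
  ∃ A : ℝ, A < y ∧ (∀ b, A ≤ b → 0 ≤ phi h c A b) ∧ c ≤ h A

def S_KEY2 : Prop := ∀ h : ℝ → ℝ, Adm h → ∀ y c A : ℝ, A < y → (∀ b, y ≤ b → 0 ≤ phi h c A b) →
  c ≤ iso h y

def S_INT : Prop := ∀ h : ℝ → ℝ, Adm h → Monotone (iso h) → Continuous (iso h) →
  ∫ y, iso h y ∂g1 = ∫ y, h y ∂g1

def S_LINE : Prop := GoodOp g1 iso 1

/-! ### products and powers -/

/-- act in the first variable -/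
def op1 {X Y : Type} (T : (X → ℝ) → X → ℝ) (F : X × Y → ℝ) : X × Y → ℝ :=
  fun p => T (fun x => F (x, p.2)) p.1

/-- act in the second variable -/
def op2 {X Y : Type} (S : (Y → ℝ) → Y → ℝ) (F : X × Y → ℝ) : X × Y → ℝ :=
  fun p => S (fun y => F (p.1, y)) p.2

def prodOp {X Y : Type} (T : (X → ℝ) → X → ℝ) (S : (Y → ℝ) → Y → ℝ) (F : X × Y → ℝ) : X × Y → ℝ :=
  op2 S (op1 T F)

def S_PROD : Prop := ∀ (X Y : Type) [NormedAddCommGroup X] [PartialOrder X] [MeasurableSpace X]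
  [BorelSpace X] [SecondCountableTopology X] [NormedAddCommGroup Y] [PartialOrder Y]
  [MeasurableSpace Y] [BorelSpace Y] [SecondCountableTopology Y]
  (μ : Measure X) (ν : Measure Y) [IsProbabilityMeasure μ] [IsProbabilityMeasure ν]
  (T : (X → ℝ) → X → ℝ) (S : (Y → ℝ) → Y → ℝ) (C D : ℝ≥0),
  GoodOp μ T C → GoodOp ν S D → ∃ C' : ℝ≥0, GoodOp (μ.prod ν) (prodOp T S) C'

/-- standard Gaussian on `ℝⁿ` -/
noncomputable def gam (n : ℕ) : Measure (Fin n → ℝ) := Measure.pi (fun _ => g1)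

instance : IsProbabilityMeasure g1 := by unfold g1; infer_instance

instance (n : ℕ) : IsProbabilityMeasure (gam n) := by unfold gam; infer_instance

/-- from the line to `ℝⁿ` (uses S_PROD, induction on n) -/
def S_PI : Prop := (∃ T C, GoodOp g1 T C) → ∀ n : ℕ, ∃ T C, GoodOp (gam n) T C

def S_L1 : Prop := ∀ (X : Type) [NormedAddCommGroup X] [PartialOrder X] [MeasurableSpace X]
  [BorelSpace X] [SecondCountableTopology X] (μ : Measure X) [IsProbabilityMeasure μ]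
  (T : (X → ℝ) → X → ℝ) (C : ℝ≥0), GoodOp μ T C → ∀ F G : X → ℝ, Adm F → Adm G →
  ∫ x, |T F x - T G x| ∂μ ≤ ∫ x, |F x - G x| ∂μ

/-! ### the Euclidean norm of the negative part of the gradient -/

/-- `‖∇⁻ f (x)‖₂` -/
noncomputable def ngrad {n : ℕ} (f : (Fin n → ℝ) → ℝ) (x : Fin n → ℝ) : ℝ :=
  Real.sqrt (∑ i, (min (fderiv ℝ f x (Pi.single i 1)) 0) ^ 2)

/-- exchange bound -/
def ExB {X : Type} [NormedAddCommGroup X] [NormedSpace ℝ X] [MeasurableSpace X] (n : ℕ)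
    (μ : Measure X) (T : (X → ℝ) → X → ℝ) (σ : X →L[ℝ] (Fin n → ℝ)) (c : ℝ) : Prop :=
  ∀ f : (Fin n → ℝ) → ℝ, Adm f →
    ∫ p : X × X, |T (fun u => f (σ u + σ p.2)) p.1 - T (fun u => f (σ p.1 + σ u)) p.2| ∂(μ.prod μ)
      ≤ c * ∫ p : X × X, ngrad f (σ p.1 + σ p.2) ∂(μ.prod μ)

/-- claim with constants `α`, `β` -/
def Cl {X : Type} [NormedAddCommGroup X] [NormedSpace ℝ X] [MeasurableSpace X] (n : ℕ)
    (μ : Measure X) (T : (X → ℝ) → X → ℝ) (σ : X →L[ℝ] (Fin n → ℝ)) (α β : ℝ) : Prop :=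
  ∀ (K : ℝ≥0) (f : (Fin n → ℝ) → ℝ), Adm f → LipschitzWith K f →
    ∫ x, |f (σ x) - T (fun u => f (σ u)) x| ∂μ ≤ α * ∫ x, ngrad f (σ x) ∂μ + β * K

/-- the sum map on the doubled space -/
noncomputable def dbl {X : Type} [NormedAddCommGroup X] [NormedSpace ℝ X] {n : ℕ}
    (σ : X →L[ℝ] (Fin n → ℝ)) : X × X →L[ℝ] (Fin n → ℝ) :=
  σ.comp (ContinuousLinearMap.fst ℝ X X) + σ.comp (ContinuousLinearMap.snd ℝ X X)

/-- doubling of the exchange bound (c becomes 5c); may use S_PROD, S_L1 -/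
def S_DBL : Prop := ∀ (X : Type) [NormedAddCommGroup X] [NormedSpace ℝ X] [PartialOrder X]
  [MeasurableSpace X] [BorelSpace X] [SecondCountableTopology X]
  (n : ℕ) (μ : Measure X) [IsProbabilityMeasure μ] (T : (X → ℝ) → X → ℝ) (C : ℝ≥0)
  (σ : X →L[ℝ] (Fin n → ℝ)) (c : ℝ), GoodOp μ T C → ExB n μ T σ c →
  ExB n (μ.prod μ) (prodOp T T) (dbl σ) (5 * c)

/-- doubling of the claim; may use S_PROD, S_L1 -/
def S_CLD : Prop := ∀ (X : Type) [NormedAddCommGroup X] [NormedSpace ℝ X] [PartialOrder X]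
  [MeasurableSpace X] [BorelSpace X] [SecondCountableTopology X]
  (n : ℕ) (μ : Measure X) [IsProbabilityMeasure μ] (T : (X → ℝ) → X → ℝ) (C : ℝ≥0)
  (σ : X →L[ℝ] (Fin n → ℝ)) (c α β : ℝ), GoodOp μ T C → ExB n μ T σ c → Cl n μ T σ α β →
  Cl n (μ.prod μ) (prodOp T T) (dbl σ) (α + 2 * c) β

/-! ### Gaussian analysis -/

/-- Maurey-Pisier -/
def S_PO : Prop := ∀ (n : ℕ) (g : (Fin n → ℝ) → ℝ) (K : ℝ≥0), LipschitzWith K g →
  ∫ x, |g x - g (-x)| ∂(gam n) ≤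
    Real.pi * ∫ x, Real.sqrt (∑ i, (fderiv ℝ g x (Pi.single i 1)) ^ 2) ∂(gam n)

/-- directed sup-convolution -/
noncomputable def M {n : ℕ} (ε : ℝ) (f : (Fin n → ℝ) → ℝ) (x : Fin n → ℝ) : ℝ :=
  sSup {r : ℝ | ∃ b : Fin n → ℝ, 0 ≤ b ∧ ∑ i, b i ^ 2 ≤ ε ^ 2 ∧ r = f (x - b)}

def S_MADM : Prop := ∀ (n : ℕ) (f : (Fin n → ℝ) → ℝ), Adm f → ∀ ε : ℝ, 0 ≤ ε →
  Adm (M ε f) ∧ (∀ x, f x ≤ M ε f x) ∧
  (∀ (a : Fin n → ℝ), 0 ≤ a → ∑ i, a i ^ 2 ≤ ε ^ 2 → ∀ x c, 0 ≤ c → c ≤ a →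
    f (x + c - a) ≤ M ε f x)

def S_MLIM : Prop := ∀ (n : ℕ) (f : (Fin n → ℝ) → ℝ), Adm f → ∀ (ν : Measure (Fin n → ℝ))
  [IsProbabilityMeasure ν], ν ≪ volume → ∀ ε : ℕ → ℝ, (∀ k, 0 < ε k) → Tendsto ε atTop (𝓝 0) →
  Tendsto (fun k => ∫ x, (M (ε k) f x - f x) / ε k ∂ν) atTop (𝓝 (∫ x, ngrad f x ∂ν))

/-- gradient bound at a point of differentiability -/
def S_GRB : Prop := ∀ (n : ℕ) (g : (Fin n → ℝ) → ℝ) (d : Fin n → ℝ), DifferentiableAt ℝ g d →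
  ∀ (ε q : ℕ → ℝ), (∀ k, 0 < ε k) → Tendsto ε atTop (𝓝 0) →
  (∀ (k : ℕ) (a : Fin n → ℝ), 0 ≤ a → ∑ i, a i ^ 2 ≤ 1 →
    0 ≤ g (d + ε k • a) - g d ∧ g (d + ε k • a) - g d ≤ ε k * q k) →
  ENNReal.ofReal (Real.sqrt (∑ i, (fderiv ℝ g d (Pi.single i 1)) ^ 2)) ≤
    liminf (fun k => ENNReal.ofReal (q k)) atTop

/-- the exchange bound on `ℝⁿ`; uses S_PO, S_MADM, S_MLIM, S_GRB, S_ROT -/
def S_EX0 : Prop := ∀ (n : ℕ) (T : ((Fin n → ℝ) → ℝ) → (Fin n → ℝ) → ℝ) (C : ℝ≥0),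
  GoodOp (gam n) T C → ExB n (gam n) T (ContinuousLinearMap.id ℝ (Fin n → ℝ)) (Real.pi / Real.sqrt 2)

/-- invariance of `μ × μ` under the rotation by 45 degrees -/
def RotInv {X : Type} [NormedAddCommGroup X] [NormedSpace ℝ X] [MeasurableSpace X]
    (μ : Measure X) : Prop :=
  (μ.prod μ).map (fun p : X × X => ((1 / Real.sqrt 2) • (p.1 + p.2), (1 / Real.sqrt 2) • (p.1 - p.2)))
    = μ.prod μ

def S_ROT : Prop := (∀ n : ℕ, RotInv (gam n)) ∧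
  ∀ (X : Type) [NormedAddCommGroup X] [NormedSpace ℝ X] [MeasurableSpace X] [BorelSpace X]
  [SecondCountableTopology X] (μ : Measure X) [IsProbabilityMeasure μ], RotInv μ → RotInv (μ.prod μ)

/-- merging two blocks -/
def S_MERGE : Prop := ∀ (X : Type) [NormedAddCommGroup X] [NormedSpace ℝ X] [PartialOrder X]
  [IsOrderedAddMonoid X] [PosSMulMono ℝ X] [MeasurableSpace X] [BorelSpace X]
  [SecondCountableTopology X] (μ : Measure X) [IsProbabilityMeasure μ], RotInv μ →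
  ∀ (φ : X → ℝ) (G : X × X → ℝ), Adm φ → Adm G → Monotone G →
  ∃ g : X → ℝ, Adm g ∧ Monotone g ∧
    ∫ x, |φ x - g x| ∂μ ≤ ∫ p : X × X, |φ ((1 / Real.sqrt 2) • (p.1 + p.2)) - G p| ∂(μ.prod μ)

/-! ### the Gaussian theorem and the cube -/

def S_GAUSS : Prop := ∃ α : ℝ, 0 < α ∧ ∀ (n : ℕ) (f : (Fin n → ℝ) → ℝ), Adm f →
  ∃ g : (Fin n → ℝ) → ℝ, Adm g ∧ Monotone g ∧
    ∫ x, |f x - g x| ∂(gam n) ≤ α * ∫ x, ngrad f x ∂(gam n)

def S_FINAL : Prop := ∃ c : ℝ, 0 < c ∧ ∀ (n : ℕ) (f : (Fin n → ℝ) → ℝ) (K : ℝ≥0),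
  LipschitzOnWith K f (Set.Icc 0 1) →
  ∃ g : (Fin n → ℝ) → ℝ, Measurable g ∧ MonotoneOn g (Set.Icc 0 1) ∧
    ∫ x in Set.Icc (0 : Fin n → ℝ) 1, |f x - g x| ≤ c * ∫ x in Set.Icc (0 : Fin n → ℝ) 1, ngrad f x

def S_CUBE : Prop := S_GAUSS → S_FINAL

end R34.DP
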